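import Mathlib

namespace Pool.Agent.Results.MP_e752eb_gt.CompletelyMetrizable

open Set TopologicalSpace Metric

universe u

/-- A sequence `(B n)` of subsets of `X` is nested if `cl (B (n+1)) ⊆ int (B n)` for every `n`. -/
def Nested {X : Type u} [TopologicalSpace X] (B : ℕ → Set X) : Prop :=
  ∀ n, closure (B (n + 1)) ⊆ interior (B n)

/-- `X` is strongly Telgársky pseudocomplete: it has a base of non-empty open sets such that every
nested sequence of members of the base has non-empty intersection. -/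
def StronglyTelgarskyPseudocomplete (X : Type u) [TopologicalSpace X] : Prop :=
  ∃ 𝓑 : Set (Set X), IsTopologicalBasis 𝓑 ∧ (∀ B ∈ 𝓑, B.Nonempty) ∧
    ∀ B : ℕ → Set X, (∀ n, B n ∈ 𝓑) → Nested B → (⋂ n, B n).Nonempty

/-- maximal `r`-separated sets -/
theorem exists_net {X : Type u} [MetricSpace X] (r : ℝ) (hr : 0 < r) :
    ∃ S : Set X, (∀ x ∈ S, ∀ y ∈ S, dist x y < r → x = y) ∧ ∀ x, ∃ y ∈ S, dist x y < r := by
  obtain ⟨S, hS⟩ := zorn_subset {S : Set X | ∀ x ∈ S, ∀ y ∈ S, dist x y < r → x = y}
    (by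
      intro c hc hchain
      refine ⟨⋃₀ c, ?_, fun s hs => subset_sUnion_of_mem hs⟩
      intro x hx y hy hxy
      obtain ⟨s, hs, hxs⟩ := hx
      obtain ⟨t, ht, hyt⟩ := hy
      rcases hchain.total hs ht with h | h
      · exact hc ht x (h hxs) y hyt hxy
      · exact hc hs x hxs y (h hyt) hxy)
  refine ⟨S, hS.prop, ?_⟩
  intro x
  by_contra hcon
  push Not at hcon
  have hins : insert x S ∈ {S : Set X | ∀ x ∈ S, ∀ y ∈ S, dist x y < r → x = y} := by
    intro a ha b hb hab
    rcases ha with rfl | ha <;> rcases hb with rfl | hb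
    · rfl
    · exact absurd hab (not_lt.mpr (hcon b hb))
    · rw [dist_comm] at hab
      exact absurd hab (not_lt.mpr (hcon a ha))
    · exact hS.prop a ha b hb hab
  have hx : x ∈ S := hS.le_of_ge hins (subset_insert x S) (mem_insert x S)
  have := hcon x hx
  rw [dist_self] at this
  linarith

/-- **Q2**: every completely metrizable space is strongly Telgársky pseudocomplete. -/
theorem result (X : Type u) [TopologicalSpace X] [IsCompletelyMetrizableSpace X] :
    StronglyTelgarskyPseudocomplete X := by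
  let _ := upgradeIsCompletelyMetrizable X
  have hrpos : ∀ n : ℕ, (0 : ℝ) < 1 / ((n : ℝ) + 1) := fun n => by positivity
  choose S hS1 hS2 using fun n : ℕ => exists_net (X := X) (1 / ((n : ℝ) + 1)) (hrpos n)
  set L : ℕ → Set (Set X) := fun n => {B | ∃ y ∈ S n, B = ball y (1 / ((n : ℝ) + 1))} with hL
  refine ⟨⋃ n, L n, ?_, ?_, ?_⟩
  · refine isTopologicalBasis_of_isOpen_of_nhds ?_ ?_
    · intro B hB
      obtain ⟨n, y, _, rfl⟩ := mem_iUnion.mp hB
      exact isOpen_ball
    · intro x O hx hO
      obtain ⟨ε, hε, hεO⟩ := Metric.isOpen_iff.mp hO x hx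
      obtain ⟨n, hn⟩ := exists_nat_one_div_lt (half_pos hε)
      obtain ⟨y, hy, hxy⟩ := hS2 n x
      refine ⟨ball y (1 / ((n : ℝ) + 1)), mem_iUnion.mpr ⟨n, y, hy, rfl⟩, hxy, ?_⟩
      intro z hz
      apply hεO
      rw [mem_ball] at hz ⊢
      calc dist z x ≤ dist z y + dist y x := dist_triangle _ _ _
        _ < 1 / ((n : ℝ) + 1) + 1 / ((n : ℝ) + 1) := by
            rw [dist_comm y x]; exact add_lt_add hz hxy
        _ < ε := by linarith
  · intro B hB
    obtain ⟨n, y, _, rfl⟩ := mem_iUnion.mp hB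
    exact ⟨y, mem_ball_self (hrpos n)⟩
  · intro B hB hnest
    have hstep : ∀ n, B (n + 1) ⊆ B n := fun n =>
      subset_closure.trans ((hnest n).trans interior_subset)
    have hanti : ∀ m n, m ≤ n → B n ⊆ B m := fun m n h =>
      antitone_nat_of_succ_le (f := B) hstep h
    by_cases hinf : ∃ n, ∀ m, ∃ i, m ≤ i ∧ B i ∈ L n
    · obtain ⟨n, hn⟩ := hinf
      obtain ⟨i0, _, y, hy, hBi0⟩ := hn 0
      refine ⟨y, mem_iInter.mpr fun m => ?_⟩
      obtain ⟨i, hi, y', hy', hBi⟩ := hn (max m i0)
      have h1 : y' ∈ B i := by rw [hBi]; exact mem_ball_self (hrpos n)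
      have h2 : y' ∈ B i0 := hanti i0 i ((le_max_right _ _).trans hi) h1
      rw [hBi0, mem_ball] at h2
      have h3 : y' = y := hS1 n y' hy' y hy h2
      rw [h3] at h1
      exact hanti m i ((le_max_left _ _).trans hi) h1
    · push Not at hinf
      have hdiam : ∀ n : ℕ, ∃ N, ∀ i, N ≤ i → ∃ k, n < k ∧ B i ∈ L k := by
        intro n
        induction n with
        | zero =>
          obtain ⟨M, hM⟩ := hinf 0
          refine ⟨M, fun i hi => ?_⟩
          obtain ⟨k, hk⟩ := mem_iUnion.mp (hB i)
          refine ⟨k, Nat.pos_of_ne_zero ?_, hk⟩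
          rintro rfl
          exact hM i hi hk
        | succ n ih =>
          obtain ⟨N, hN⟩ := ih
          obtain ⟨M, hM⟩ := hinf (n + 1)
          refine ⟨max N M, fun i hi => ?_⟩
          obtain ⟨k, hk, hk2⟩ := hN i ((le_max_left _ _).trans hi)
          refine ⟨k, lt_of_le_of_ne hk ?_, hk2⟩
          rintro rfl
          exact hM i ((le_max_right _ _).trans hi) hk2
      have hne : ∀ i, (B i).Nonempty := by
        intro i
        obtain ⟨n, y, _, hy⟩ := mem_iUnion.mp (hB i)
        rw [hy]
        exact ⟨y, mem_ball_self (hrpos n)⟩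
      choose z hz using hne
      have hcau : CauchySeq z := by
        rw [Metric.cauchySeq_iff]
        intro ε hε
        obtain ⟨n, hn⟩ := exists_nat_one_div_lt (half_pos hε)
        obtain ⟨N, hN⟩ := hdiam n
        refine ⟨N, fun a ha b hb => ?_⟩
        obtain ⟨k, hk, y, _, hBy⟩ := hN N le_rfl
        have h1 : z a ∈ ball y (1 / ((k : ℝ) + 1)) := hBy ▸ hanti N a ha (hz a)
        have h2 : z b ∈ ball y (1 / ((k : ℝ) + 1)) := hBy ▸ hanti N b hb (hz b)
        rw [mem_ball] at h1 h2
        have h3 : 1 / ((k : ℝ) + 1) ≤ 1 / ((n : ℝ) + 1) := by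
          apply one_div_le_one_div_of_le (by positivity)
          have : (n : ℝ) < k := by exact_mod_cast hk
          linarith
        calc dist (z a) (z b) ≤ dist (z a) y + dist (z b) y := dist_triangle_right _ _ _
          _ < ε := by linarith
      obtain ⟨w, hw⟩ := cauchySeq_tendsto_of_complete hcau
      refine ⟨w, mem_iInter.mpr fun m => ?_⟩
      have h1 : w ∈ closure (B (m + 1)) := by
        apply mem_closure_of_tendsto hw
        filter_upwards [Filter.eventually_ge_atTop (m + 1)] with i hi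
        exact hanti (m + 1) i hi (hz i)
      exact interior_subset (hnest m h1)

end Pool.Agent.Results.MP_e752eb_gt.CompletelyMetrizable
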